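import Pool.Agent.Helper29.E3.St2

set_option autoImplicit false

namespace Pool.Agent.Helper71.E3

open Pool.Agent.Helper29.E3 Pool.Agent.Helper49.PC

theorem wpow {ι : Type} (s : Finset ι) (w z : ι → ℝ) (r : ℕ) (hr : 1 ≤ r) (hw : ∀ i ∈ s, 0 ≤ w i)
    (hz : ∀ i ∈ s, 0 ≤ z i) :
    (∑ i ∈ s, w i * z i) ^ r ≤ (∑ i ∈ s, w i) ^ (r - 1) * ∑ i ∈ s, w i * z i ^ r := by
  have hW : 0 ≤ ∑ i ∈ s, w i := Finset.sum_nonneg hw
  rcases hW.eq_or_lt with h0 | hpos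
  · have h1 : ∀ i ∈ s, w i = 0 := (Finset.sum_eq_zero_iff_of_nonneg hw).1 h0.symm
    have h2 : ∑ i ∈ s, w i * z i = 0 := Finset.sum_eq_zero fun i hi => by rw [h1 i hi, zero_mul]
    have h3 : ∑ i ∈ s, w i * z i ^ r = 0 := Finset.sum_eq_zero fun i hi => by rw [h1 i hi, zero_mul]
    rw [h2, h3, mul_zero, zero_pow (by omega)]
  · set W := ∑ i ∈ s, w i with hWdef
    have h1 := Real.pow_arith_mean_le_arith_mean_pow s (fun i => w i / W) z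
      (fun i hi => div_nonneg (hw i hi) hpos.le)
      (by rw [← Finset.sum_div, ← hWdef, div_self hpos.ne']) hz r
    have e1 : ∑ i ∈ s, w i / W * z i = (∑ i ∈ s, w i * z i) / W := by
      rw [Finset.sum_div]
      exact Finset.sum_congr rfl fun i _ => by ring
    have e2 : ∑ i ∈ s, w i / W * z i ^ r = (∑ i ∈ s, w i * z i ^ r) / W := by
      rw [Finset.sum_div]
      exact Finset.sum_congr rfl fun i _ => by ring
    rw [e1, e2, div_pow, div_le_div_iff₀ (by positivity) hpos] at h1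
    have h2 : W ^ r = W ^ (r - 1) * W := by rw [← pow_succ]; congr 1; omega
    rw [h2] at h1
    refine le_of_mul_le_mul_right ?_ hpos
    calc (∑ i ∈ s, w i * z i) ^ r * W ≤ (∑ i ∈ s, w i * z i ^ r) * (W ^ (r - 1) * W) := h1
      _ = W ^ (r - 1) * (∑ i ∈ s, w i * z i ^ r) * W := by ring

theorem hHLD : StHLD := by
  intro ι s S A B r V Y hr hV hS hA hB hY
  have h1 : (∑ i ∈ s, S i * (A i * B i)) ^ 2 ≤ (∑ i ∈ s, A i ^ 2) * ∑ i ∈ s, S i ^ 2 * B i ^ 2 := by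
    have := Finset.sum_mul_sq_le_sq_mul_sq s A (fun i => S i * B i)
    have e1 : ∑ i ∈ s, A i * (S i * B i) = ∑ i ∈ s, S i * (A i * B i) :=
      Finset.sum_congr rfl fun i _ => by ring
    have e2 : ∑ i ∈ s, (S i * B i) ^ 2 = ∑ i ∈ s, S i ^ 2 * B i ^ 2 :=
      Finset.sum_congr rfl fun i _ => by ring
    rwa [e1, e2] at this
  have h2 := wpow s (fun i => S i ^ 2) (fun i => B i ^ 2) r hr (fun i _ => sq_nonneg _) (fun i _ => sq_nonneg _)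
  have h3 : ∑ i ∈ s, S i ^ 2 * (B i ^ 2) ^ r ≤ V ^ 2 * ∑ i ∈ s, B i ^ (2 * r) := by
    rw [Finset.mul_sum]
    apply Finset.sum_le_sum
    intro i hi
    rw [← pow_mul]
    exact mul_le_mul_of_nonneg_right (pow_le_pow_left₀ (hS i hi).1 (hS i hi).2 2) (pow_nonneg (hB i hi) _)
  have h4 : 0 ≤ ∑ i ∈ s, S i ^ 2 := Finset.sum_nonneg fun i _ => sq_nonneg _
  have h5 : 0 ≤ ∑ i ∈ s, S i ^ 2 * (B i ^ 2) ^ r :=
    Finset.sum_nonneg fun i _ => mul_nonneg (sq_nonneg _) (pow_nonneg (sq_nonneg _) _)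
  have h6 : 0 ≤ ∑ i ∈ s, A i ^ 2 := Finset.sum_nonneg fun i _ => sq_nonneg _
  calc (∑ i ∈ s, S i * (A i * B i)) ^ (2 * r) = ((∑ i ∈ s, S i * (A i * B i)) ^ 2) ^ r := by rw [pow_mul]
    _ ≤ ((∑ i ∈ s, A i ^ 2) * ∑ i ∈ s, S i ^ 2 * B i ^ 2) ^ r := pow_le_pow_left₀ (sq_nonneg _) h1 r
    _ = (∑ i ∈ s, A i ^ 2) ^ r * (∑ i ∈ s, S i ^ 2 * B i ^ 2) ^ r := by rw [mul_pow]
    _ ≤ (∑ i ∈ s, A i ^ 2) ^ r * (Y ^ (r - 1) * (V ^ 2 * ∑ i ∈ s, B i ^ (2 * r))) := by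
      apply mul_le_mul_of_nonneg_left _ (pow_nonneg h6 _)
      refine h2.trans ?_
      exact mul_le_mul (pow_le_pow_left₀ h4 hY _) h3 h5 (pow_nonneg (h4.trans hY) _)

end Pool.Agent.Helper71.E3
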